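import Pool.Agent.H947Z.Hur.Main

set_option autoImplicit false

namespace Pool.Agent.Results.MP_8652de_gt.ANotHurewicz

open Topology Pool.Agent.H947Z.Hur

universe u

/-- Let `T₂ ⊆ T₁` be topologies on a set `X` with `(X, T₂)` compact Hausdorff,
`ind (X, T₁) = 0` and `ind (X, T₂) > 0`. Then `(X, T₁)` is not a Hurewicz space.
(Normality of `T₁` is not needed.) -/
theorem result :
    ∀ (X : Type u) (T₁ T₂ : TopologicalSpace X),
      (∀ U : Set X, IsOpen[T₂] U → IsOpen[T₁] U) →
      @CompactSpace X T₂ → @T2Space X T₂ →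
      @smallInductiveDimension X T₁ = 0 → 0 < @smallInductiveDimension X T₂ →
      ¬ @IsHurewicz X T₁ :=
  fun _ T₁ T₂ hle hc h2 h0 hpos => main T₁ T₂ hle hc h2 h0 hpos

end Pool.Agent.Results.MP_8652de_gt.ANotHurewicz
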